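import Pool.Agent.H504.UC.Edge

/-!
# The strict criterion for families of density one third
-/

set_option autoImplicit false

namespace Pool.Agent.H504.UC

open Finset Pool.Agent.N188.FC

variable {α : Type*} [DecidableEq α]

/-- the members of `G` inside `T` -/
def ins (G : Finset (Finset α)) (T : Finset α) : Finset (Finset α) := G.filter fun B => B ⊆ T

/-- the number of the members of `G` inside `T` which contain `x` -/
def deg (G : Finset (Finset α)) (T : Finset α) (x : α) : ℕ :=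
  (G.filter fun B => B ⊆ T ∧ x ∈ B).card

/-- the members of `G` inside `T` which contain `x` contain `y` -/
def Imp (G : Finset (Finset α)) (T : Finset α) (x y : α) : Prop :=
  ∀ B ∈ G, B ⊆ T → x ∈ B → y ∈ B

variable {F G : Finset (Finset α)} {T : Finset α}

lemma up_le {R : Finset α} (hR : R ⊆ T) (P : Finset (Finset α))
    (hP : ∀ B ∈ P, B ⊆ T ∧ R ⊆ B) : 2 ^ R.card * P.card ≤ 2 ^ T.card := by
  have h1 : P.card ≤ (T \ R).powerset.card := by
    refine card_le_card_of_injOn (fun B => B \ R) ?_ ?_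
    · intro B hB
      rw [mem_coe, mem_powerset]
      exact sdiff_subset_sdiff (hP B hB).1 Subset.rfl
    · intro B hB B' hB' h
      have h' : B \ R = B' \ R := h
      have e1 := sdiff_union_of_subset (hP B hB).2
      have e2 := sdiff_union_of_subset (hP B' hB').2
      rw [← e1, ← e2, h']
  rw [card_powerset] at h1
  have h2 := card_sdiff_add_card_eq_card hR
  calc 2 ^ R.card * P.card ≤ 2 ^ R.card * 2 ^ (T \ R).card := Nat.mul_le_mul_left _ h1
    _ = 2 ^ T.card := by rw [← pow_add, add_comm, h2]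

lemma card_valid {x : α} {𝒟 : Finset (Finset α)} (hv : Valid T (ins G T) x 𝒟) :
    𝒟.card + deg G T x ≤ 2 ^ (T.erase x).card := by
  have h1 : (𝒟 ∪ (G.filter fun B => B ⊆ T ∧ x ∈ B).image fun B => B.erase x) ⊆
      (T.erase x).powerset := by
    intro D hD
    rw [mem_union, mem_image] at hD
    rw [mem_powerset]
    rcases hD with hD | ⟨B, hB, rfl⟩
    · exact hv.1 D hD
    · rw [mem_filter] at hB
      exact erase_subset_erase _ hB.2.1
  have h2 : Disjoint 𝒟 ((G.filter fun B => B ⊆ T ∧ x ∈ B).image fun B => B.erase x) := by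
    rw [disjoint_left]
    intro D hD hD'
    rw [mem_image] at hD'
    obtain ⟨B, hB, rfl⟩ := hD'
    rw [mem_filter] at hB
    refine hv.2.2 _ hD B (mem_filter.2 ⟨hB.1, hB.2.1⟩) hB.2.2 ?_
    rw [insert_erase hB.2.2]
  have h3 := card_le_card h1
  rw [card_union_of_disjoint h2, card_powerset, card_image_of_injOn] at h3
  · exact h3
  · intro B hB B' hB' h
    rw [mem_coe, mem_filter] at hB hB'
    have h' : B.erase x = B'.erase x := h
    rw [← insert_erase hB.2.2, ← insert_erase hB'.2.2, h']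

lemma two_pow_erase {x : α} (hx : x ∈ T) : 2 ^ T.card = 2 * 2 ^ (T.erase x).card := by
  rw [← pow_succ', card_erase_of_mem hx]
  congr 1
  have : 0 < T.card := card_pos.2 ⟨x, hx⟩
  omega

/-- No two further elements are implied. -/
lemma imp_unique (hdeg : ∀ x ∈ T, 2 ^ T.card ≤ 6 * deg G T x) {x y z : α} (hx : x ∈ T)
    (hy : y ∈ T) (hz : z ∈ T) (hyx : y ≠ x) (hzx : z ≠ x) (h1 : Imp G T x y) (h2 : Imp G T x z) :
    y = z := by
  by_contra hyz
  have h3 := up_le (T := T) (R := {x, y, z}) (by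
    intro w hw
    simp only [mem_insert, mem_singleton] at hw
    rcases hw with rfl | rfl | rfl <;> assumption) (G.filter fun B => B ⊆ T ∧ x ∈ B) (by
    intro B hB
    rw [mem_filter] at hB
    refine ⟨hB.2.1, ?_⟩
    intro w hw
    simp only [mem_insert, mem_singleton] at hw
    rcases hw with rfl | rfl | rfl
    · exact hB.2.2
    · exact h1 B hB.1 hB.2.1 hB.2.2
    · exact h2 B hB.1 hB.2.1 hB.2.2)
  have h4 : ({x, y, z} : Finset α).card = 3 := by
    rw [card_insert_of_notMem, card_pair hyz]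
    simp only [mem_insert, mem_singleton, not_or]
    exact ⟨Ne.symm hyx, Ne.symm hzx⟩
  rw [h4] at h3
  have h5 := hdeg x hx
  have h6 : 0 < 2 ^ T.card := by positivity
  unfold deg at h5
  omega

open Classical in
/-- the weights: elements which imply no other element get a slightly larger weight -/
noncomputable def wt (G : Finset (Finset α)) (T : Finset α) (k : α) : ℝ :=
  if ∃ y ∈ T, y ≠ k ∧ Imp G T k y then 1 else 1 + 1 / 2 ^ T.card

lemma one_le_wt (k : α) : 1 ≤ wt G T k := by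
  unfold wt
  split_ifs
  · exact le_rfl
  · have : (0 : ℝ) ≤ 1 / 2 ^ T.card := by positivity
    linarith

lemma wt_le (k : α) : wt G T k ≤ 1 + 1 / 2 ^ T.card := by
  unfold wt
  have : (0 : ℝ) ≤ 1 / 2 ^ T.card := by positivity
  split_ifs
  · linarith
  · exact le_rfl

theorem core (hF : ∀ A ∈ F, ∀ B ∈ F, A ∪ B ∈ F) (hFG : ∀ A ∈ F, ∀ B ∈ G, A ∪ B ∈ F)
    (hdeg : ∀ x ∈ T, 2 ^ T.card ≤ 6 * deg G T x)
    (hnb : ∀ x ∈ T, ∀ y ∈ T, x ≠ y → Imp G T x y → ¬ Imp G T y x) :
    (∃ x ∈ T, F.card < 2 * (F.filter (fun A => x ∈ A)).card) ∨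
      (∀ A ∈ F, ∀ B, B ⊆ T → A ∪ B ∈ F ∧ A \ B ∈ F) := by
  have hw0 : ∀ k : α, 0 < wt G T k := fun k => lt_of_lt_of_le one_pos (one_le_wt k)
  have h := strict_of_weights (F := F) (G := ins G T) (S := T) (c := wt G T) hF
    (fun B hB => (mem_filter.1 hB).2) (fun A hA B hB => hFG A hA B (mem_filter.1 hB).1)
    (fun k => (hw0 k).le) (fun k _ => hw0 k) ?_
  · rcases h with h | h
    · exact Or.inl (exists_of_strict (fun k => (hw0 k).le) h)
    · exact Or.inr h
  intro x hx 𝒟 hv hne
  have hc := card_valid hv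
  have hp := two_pow_erase hx
  have hd := hdeg x hx
  have h3 : 3 * 𝒟.card ≤ 2 * 2 ^ (T.erase x).card := by omega
  have hge : ((∑ D ∈ 𝒟, ((T.erase x).filter (fun k => k ∉ D ∧ insert k D ∉ 𝒟)).card : ℕ) : ℝ) ≤
      ∑ D ∈ 𝒟, ∑ k ∈ (T.erase x).filter (fun k => k ∉ D ∧ insert k D ∉ 𝒟), wt G T k := by
    push_cast
    refine sum_le_sum fun D _ => ?_
    rw [card_eq_sum_ones]
    push_cast
    exact sum_le_sum fun k _ => one_le_wt k
  by_cases hf : ∀ y ∈ T.erase x, (T.erase x).erase y ∉ 𝒟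
  · have h4 := edge_lt hv.1 hv.2.1 hne h3 hf
    have h5 : ((𝒟.card + 1 : ℕ) : ℝ) ≤
        ((∑ D ∈ 𝒟, ((T.erase x).filter (fun k => k ∉ D ∧ insert k D ∉ 𝒟)).card : ℕ) : ℝ) := by
      exact_mod_cast h4
    refine lt_of_lt_of_le ?_ (h5.trans hge)
    have h6 : (𝒟.card : ℝ) < 2 ^ T.card := by
      have : 𝒟.card < 2 ^ T.card := by
        have : 0 < 2 ^ (T.erase x).card := by positivity
        omega
      exact_mod_cast this
    have h7 : (1 : ℝ) / 2 ^ T.card * 𝒟.card < 1 := by
      rw [one_div, inv_mul_lt_iff₀ (by positivity)]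
      linarith
    have h8 : wt G T x * 𝒟.card ≤ (1 + 1 / 2 ^ T.card) * 𝒟.card :=
      mul_le_mul_of_nonneg_right (wt_le x) (Nat.cast_nonneg _)
    push_cast
    linarith
  · push Not at hf
    obtain ⟨k, hk, hkD⟩ := hf
    have hkT : k ∈ T := (mem_erase.1 hk).2
    have hkx : k ≠ x := (mem_erase.1 hk).1
    have h4 : Imp G T x k := by
      intro B hB hBT hxB
      by_contra hkB
      refine hv.2.2 _ hkD B (mem_filter.2 ⟨hB, hBT⟩) hxB ?_
      intro w hw
      by_cases hwx : w = x
      · rw [hwx]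
        exact mem_insert_self _ _
      · refine mem_insert_of_mem (mem_erase.2 ⟨fun h => hkB (h ▸ hw), mem_erase.2 ⟨hwx, hBT hw⟩⟩)
    have h5 : wt G T x = 1 := if_pos ⟨k, hkT, hkx, h4⟩
    have h6 : 1 < wt G T k := by
      have h7 : ¬ ∃ y ∈ T, y ≠ k ∧ Imp G T k y := by
        rintro ⟨y, hy, hyk, h8⟩
        have hyx : y ≠ x := by
          rintro rfl
          exact hnb y hx k hkT (Ne.symm hkx) h4 h8
        exact hyk (imp_unique hdeg hx hkT hy hkx hyx h4 (fun B hB hBT hxB =>
          h8 B hB hBT (h4 B hB hBT hxB))).symm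
      have h8 : wt G T k = 1 + 1 / 2 ^ T.card := if_neg h7
      rw [h8]
      have : (0 : ℝ) < 1 / 2 ^ T.card := by positivity
      linarith
    have h7 : ((𝒟.card : ℕ) : ℝ) ≤
        ((∑ D ∈ 𝒟, ((T.erase x).filter (fun k => k ∉ D ∧ insert k D ∉ 𝒟)).card : ℕ) : ℝ) := by
      exact_mod_cast edge_le hv.1 hv.2.1 h3
    rw [h5, one_mul]
    refine lt_of_le_of_lt h7 ?_
    push_cast
    refine sum_lt_sum (fun D _ => ?_) ⟨_, hkD, ?_⟩
    · rw [card_eq_sum_ones]
      push_cast
      exact sum_le_sum fun k _ => one_le_wt k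
    · rw [card_eq_sum_ones]
      push_cast
      refine sum_lt_sum (fun k _ => one_le_wt k) ⟨k, ?_, h6⟩
      rw [mem_filter]
      refine ⟨hk, notMem_erase _ _, ?_⟩
      rw [insert_erase hk]
      intro hall
      have h8 : (T.erase x).powerset ⊆ 𝒟 := fun D hD =>
        hv.2.1 _ hall D (mem_powerset.1 hD)
      have h9 := card_le_card h8
      rw [card_powerset] at h9
      have : 0 < 2 ^ (T.erase x).card := by positivity
      omega

end Pool.Agent.H504.UC
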