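import Pool.Agent.H504.UC.Iso

/-!
# Edges leaving a down-set which contains no facet of the cube
-/

set_option autoImplicit false

namespace Pool.Agent.H504.UC

open Finset Pool.Agent.N188.FC

variable {α : Type*} [DecidableEq α]

lemma two_sum_powerset (N : Finset α) : 2 * ∑ D ∈ N.powerset, D.card = 2 ^ N.card * N.card := by
  have h := edges_eq (𝒟 := N.powerset) (N := N) (fun D hD => mem_powerset.1 hD)
    (fun D hD D' h => mem_powerset.2 (h.trans (mem_powerset.1 hD)))
  rw [card_powerset] at h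
  have aux : ∀ X Y Z : ℕ, X + Y = Z → X = 0 → Y = Z := by omega
  refine aux _ _ _ h (sum_eq_zero fun E hE => ?_)
  rw [card_eq_zero, filter_eq_empty_iff]
  intro k hk h2
  exact h2.2 (mem_powerset.2 (insert_subset hk (mem_powerset.1 hE)))

/-- the complements of the sets which are not in `𝒟` -/
def dual (N : Finset α) (𝒟 : Finset (Finset α)) : Finset (Finset α) :=
  N.powerset.filter fun D => N \ D ∉ 𝒟

variable {N : Finset α} {𝒟 : Finset (Finset α)}

lemma down_dual (hD : ∀ D ∈ 𝒟, ∀ D' ⊆ D, D' ∈ 𝒟) :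
    ∀ D ∈ dual N 𝒟, ∀ D' ⊆ D, D' ∈ dual N 𝒟 := by
  intro D h D' h'
  unfold dual at *
  rw [mem_filter, mem_powerset] at *
  exact ⟨h'.trans h.1, fun h2 => h.2 (hD _ h2 _ (sdiff_subset_sdiff Subset.rfl h'))⟩

lemma sum_dual (hN : ∀ D ∈ 𝒟, D ⊆ N) :
    ∑ D ∈ dual N 𝒟, D.card + 𝒟.card * N.card = ∑ D ∈ N.powerset, D.card + ∑ D ∈ 𝒟, D.card ∧
      (dual N 𝒟).card + 𝒟.card = 2 ^ N.card := by
  have h1 : ∀ f : Finset α → ℕ, ∑ D ∈ N.powerset.filter (fun D => ¬ N \ D ∉ 𝒟), f D =
      ∑ D ∈ 𝒟, f (N \ D) := by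
    intro f
    refine sum_bij' (fun D _ => N \ D) (fun D _ => N \ D) ?_ ?_ ?_ ?_ ?_
    · intro D hD
      rw [mem_filter, not_not] at hD
      exact hD.2
    · intro D hD
      rw [mem_filter, not_not, Finset.sdiff_sdiff_eq_self (hN D hD)]
      exact ⟨mem_powerset.2 sdiff_subset, hD⟩
    · intro D hD
      rw [mem_filter, mem_powerset] at hD
      exact Finset.sdiff_sdiff_eq_self hD.1
    · intro D hD
      exact Finset.sdiff_sdiff_eq_self (hN D hD)
    · intro D hD
      rw [mem_filter, mem_powerset] at hD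
      rw [Finset.sdiff_sdiff_eq_self hD.1]
  constructor
  · have h2 := sum_filter_add_sum_filter_not N.powerset (fun D => N \ D ∉ 𝒟) (fun D => D.card)
    rw [h1] at h2
    have h3 : ∑ D ∈ 𝒟, (N \ D).card + ∑ D ∈ 𝒟, D.card = 𝒟.card * N.card := by
      rw [← sum_add_distrib, card_eq_sum_ones, sum_mul]
      refine sum_congr rfl fun D hD => ?_
      rw [one_mul]
      exact card_sdiff_add_card_eq_card (hN D hD)
    unfold dual
    omega
  · have h2 := sum_filter_add_sum_filter_not N.powerset (fun D => N \ D ∉ 𝒟) (fun _ => 1)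
    rw [h1, ← card_eq_sum_ones, ← card_eq_sum_ones, ← card_eq_sum_ones, card_powerset] at h2
    exact h2

/-- The number of the edges leaving a down-set of at most two thirds of the cube. -/
theorem edge_le (hN : ∀ D ∈ 𝒟, D ⊆ N) (hD : ∀ D ∈ 𝒟, ∀ D' ⊆ D, D' ∈ 𝒟)
    (h3 : 3 * 𝒟.card ≤ 2 * 2 ^ N.card) :
    𝒟.card ≤ ∑ D ∈ 𝒟, (N.filter (fun k => k ∉ D ∧ insert k D ∉ 𝒟)).card := by
  have h1 := edges_eq hN hD
  have h2 := total_le _ 𝒟 rfl hD
  have h4 := gs_bound N.card 𝒟.card 0 (by omega) (by rw [pow_succ]; omega)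
  have h5 : ∑ D ∈ 𝒟, (N.filter (fun k => k ∉ D ∧ insert k D ∉ 𝒟)).card +
      2 * ∑ D ∈ 𝒟, D.card = N.card * 𝒟.card := by
    rw [mul_comm N.card, ← h1]
  omega

/-- **The strict inequality**: a nonempty down-set of at most two thirds of the cube which contains
no facet has more leaving edges than members. -/
theorem edge_lt (hN : ∀ D ∈ 𝒟, D ⊆ N) (hD : ∀ D ∈ 𝒟, ∀ D' ⊆ D, D' ∈ 𝒟) (hne : 𝒟.Nonempty)
    (h3 : 3 * 𝒟.card ≤ 2 * 2 ^ N.card) (hf : ∀ y ∈ N, N.erase y ∉ 𝒟) :
    𝒟.card < ∑ D ∈ 𝒟, (N.filter (fun k => k ∉ D ∧ insert k D ∉ 𝒟)).card := by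
  have h1 := edges_eq hN hD
  have h5 : ∑ D ∈ 𝒟, (N.filter (fun k => k ∉ D ∧ insert k D ∉ 𝒟)).card +
      2 * ∑ D ∈ 𝒟, D.card = 𝒟.card * N.card := by
    rw [← h1]
  obtain ⟨h6, h7⟩ := sum_dual hN
  have h8 := two_sum_powerset N
  have hdd : ∀ D ∈ dual N 𝒟, ∀ D' ⊆ D, D' ∈ dual N 𝒟 := down_dual hD
  have h9 := total_le _ (dual N 𝒟) rfl hdd
  have h10 := card_pos.2 hne
  have h11 := gs_compl N.card (dual N 𝒟).card (by omega) (by omega)
  have key : 2 ^ N.card + 2 * ∑ D ∈ dual N 𝒟, D.card < (N.card + 1) * (dual N 𝒟).card := by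
    rcases Nat.lt_or_ge (2 ^ N.card) (2 * (dual N 𝒟).card) with h | h
    · have := h11.2 h (by omega)
      omega
    · have h12 : ∑ D ∈ dual N 𝒟, D.card ≠ gs (dual N 𝒟).card := by
        intro heq
        have hne' : (dual N 𝒟).Nonempty := card_pos.1 (by
          have : 0 < 2 ^ N.card := by positivity
          omega)
        have h13 := dim_of_eq _ (dual N 𝒟) rfl hne' hdd heq
        have h14 : (dual N 𝒟).sup id = N := by
          ext z
          rw [mem_sup]
          constructor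
          · rintro ⟨D, hD', hz⟩
            unfold dual at hD'
            rw [mem_filter, mem_powerset] at hD'
            exact hD'.1 hz
          · intro hz
            refine ⟨{z}, ?_, mem_singleton_self z⟩
            unfold dual
            rw [mem_filter, mem_powerset, sdiff_singleton_eq_erase]
            exact ⟨singleton_subset_iff.2 hz, hf z hz⟩
        rw [h14] at h13
        omega
      have := h11.1
      omega
  have e1 : (N.card + 1) * (dual N 𝒟).card = N.card * (dual N 𝒟).card + (dual N 𝒟).card := by ring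
  have e2 : 2 ^ N.card * N.card = N.card * (dual N 𝒟).card + 𝒟.card * N.card := by
    rw [← h7]
    ring
  omega

end Pool.Agent.H504.UC
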