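import Pool.Agent.H504.UC.Core

/-!
# Families with more than a third of the subsets of a set: the strict inequality
-/

set_option autoImplicit false

namespace Pool.Agent.H504.UC

open Finset Pool.Agent.N188.FC

variable {α : Type*} [DecidableEq α] {F G : Finset (Finset α)}

lemma card_ins_erase (G : Finset (Finset α)) (S : Finset α) (x : α) :
    (ins G (S.erase x)).card + deg G S x = (ins G S).card := by
  unfold ins deg
  rw [← card_union_of_disjoint]
  · congr 1
    ext B
    simp only [mem_union, mem_filter, subset_erase]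
    tauto
  · rw [disjoint_left]
    intro B hB hB'
    rw [mem_filter, subset_erase] at hB
    rw [mem_filter] at hB'
    exact hB.2.2 hB'.2.2

lemma card_ins_block {S : Finset α} {x y : α} (h1 : Imp G S x y) (h2 : Imp G S y x) :
    (ins G ((S.erase x).erase y)).card + deg G S x = (ins G S).card := by
  unfold ins deg
  rw [← card_union_of_disjoint]
  · congr 1
    ext B
    simp only [mem_union, mem_filter, subset_erase]
    constructor
    · rintro (h | h)
      · exact ⟨h.1, h.2.1.1⟩
      · exact ⟨h.1, h.2.1⟩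
    · rintro ⟨hB, hBS⟩
      by_cases hx : x ∈ B
      · exact Or.inr ⟨hB, hBS, hx⟩
      · exact Or.inl ⟨hB, ⟨hBS, hx⟩, fun hy => hx (h2 B hB hBS hy)⟩
  · rw [disjoint_left]
    intro B hB hB'
    rw [mem_filter, subset_erase, subset_erase] at hB
    rw [mem_filter] at hB'
    exact hB.2.1.2 hB'.2.2

lemma deg_block {S : Finset α} {x y : α} (hx : x ∈ S) (hy : y ∈ S) (hxy : x ≠ y)
    (h1 : Imp G S x y) : 4 * deg G S x ≤ 2 ^ S.card := by
  have h3 := up_le (T := S) (R := {x, y}) (by
    intro w hw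
    simp only [mem_insert, mem_singleton] at hw
    rcases hw with rfl | rfl <;> assumption) (G.filter fun B => B ⊆ S ∧ x ∈ B) (by
    intro B hB
    rw [mem_filter] at hB
    refine ⟨hB.2.1, ?_⟩
    intro w hw
    simp only [mem_insert, mem_singleton] at hw
    rcases hw with rfl | rfl
    · exact hB.2.2
    · exact h1 B hB.1 hB.2.1 hB.2.2)
  rw [card_pair hxy] at h3
  exact h3

/-- The inside version. -/
theorem inside (hF : ∀ A ∈ F, ∀ B ∈ F, A ∪ B ∈ F) (hFG : ∀ A ∈ F, ∀ B ∈ G, A ∪ B ∈ F) :
    ∀ S : Finset α, 2 ^ S.card + 3 ≤ 3 * (ins G S).card →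
      (∃ x ∈ S, F.card < 2 * (F.filter (fun A => x ∈ A)).card) ∨
      ∃ T ⊆ S, T.Nonempty ∧ ∀ A ∈ F, ∀ B, B ⊆ T → A ∪ B ∈ F ∧ A \ B ∈ F := by
  intro S
  induction S using Finset.strongInduction with
  | _ S ih =>
    intro hS
    have mono : ∀ S' ⊆ S, ((∃ x ∈ S', F.card < 2 * (F.filter (fun A => x ∈ A)).card) ∨
      ∃ T ⊆ S', T.Nonempty ∧ ∀ A ∈ F, ∀ B, B ⊆ T → A ∪ B ∈ F ∧ A \ B ∈ F) →
      ((∃ x ∈ S, F.card < 2 * (F.filter (fun A => x ∈ A)).card) ∨
      ∃ T ⊆ S, T.Nonempty ∧ ∀ A ∈ F, ∀ B, B ⊆ T → A ∪ B ∈ F ∧ A \ B ∈ F) := by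
      rintro S' hS' (⟨x, hx, h⟩ | ⟨T, hT, h⟩)
      · exact Or.inl ⟨x, hS' hx, h⟩
      · exact Or.inr ⟨T, hT.trans hS', h⟩
    by_cases hdeg : ∀ x ∈ S, 2 ^ S.card ≤ 6 * deg G S x
    · by_cases hnb : ∀ x ∈ S, ∀ y ∈ S, x ≠ y → Imp G S x y → ¬ Imp G S y x
      · rcases core hF hFG hdeg hnb with h | h
        · exact Or.inl h
        · refine Or.inr ⟨S, Subset.rfl, ?_, h⟩
          rw [nonempty_iff_ne_empty]
          rintro rfl
          have h1 : (ins G ∅).card ≤ 1 := by
            refine card_le_one.2 fun A hA B hB => ?_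
            have hA' := subset_empty.1 (mem_filter.1 hA).2
            have hB' := subset_empty.1 (mem_filter.1 hB).2
            rw [hA', hB']
          simp only [card_empty, pow_zero] at hS
          omega
      · push Not at hnb
        obtain ⟨x, hx, y, hy, hxy, h1, h2⟩ := hnb
        have h3 := card_ins_block h1 h2
        have h4 := deg_block hx hy hxy h1
        have hy' : y ∈ S.erase x := mem_erase.2 ⟨Ne.symm hxy, hy⟩
        refine mono ((S.erase x).erase y) ((erase_subset _ _).trans (erase_subset _ _))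
          (ih _ (Finset.ssubset_of_subset_of_ssubset (erase_subset _ _) (erase_ssubset hx)) ?_)
        have h5 := two_pow_erase hx
        have h6 := two_pow_erase hy'
        omega
    · push Not at hdeg
      obtain ⟨x, hx, hlt⟩ := hdeg
      refine mono (S.erase x) (erase_subset _ _) (ih _ (erase_ssubset hx) ?_)
      have h5 := two_pow_erase hx
      have h3 := card_ins_erase G S x
      omega

end Pool.Agent.H504.UC
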