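import Pool.Graph.R_pool_sql_team_seeded_63374d34.N188.FC.Strict
import Pool.Graph.R_pool_sql_team_seeded_63374d34.N188.FC.Third

/-!
# A strict edge isoperimetric inequality for down-sets
-/

set_option autoImplicit false

namespace Pool.Agent.H504.UC

open Finset Pool.Agent.N188.FC

/-! ### The sum of the digit sums -/

lemma ds_pow_add (k : ℕ) : ∀ m, m < 2 ^ k → ds (2 ^ k + m) = ds m + 1 := by
  induction k with
  | zero =>
    intro m hm
    have : m = 0 := by simpa using hm
    subst this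
    decide
  | succ k ih =>
    intro m hm
    rw [pow_succ] at hm ⊢
    obtain ⟨a, ha | ha⟩ := Nat.even_or_odd' m
    · rw [ha, show 2 ^ k * 2 + 2 * a = 2 * (2 ^ k + a) by ring, ds_even, ds_even, ih a (by omega)]
    · rw [ha, show 2 ^ k * 2 + (2 * a + 1) = 2 * (2 ^ k + a) + 1 by ring, ds_odd, ds_odd,
        ih a (by omega)]

lemma gs_pow_add (k m : ℕ) (hm : m ≤ 2 ^ k) : gs (2 ^ k + m) = gs (2 ^ k) + m + gs m := by
  induction m with
  | zero => simp [gs_zero]
  | succ m ih =>
    rw [← add_assoc, gs_succ, ih (by omega), gs_succ, ds_pow_add k m (by omega)]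
    ring

lemma two_gs_pow (k : ℕ) : 2 * gs (2 ^ k) = k * 2 ^ k := by
  induction k with
  | zero => decide
  | succ k ih =>
    rw [pow_succ, mul_comm (2 ^ k) 2, gs_even]
    have : 2 * (2 * gs (2 ^ k) + 2 ^ k) = 2 * (2 * gs (2 ^ k)) + 2 * 2 ^ k := by ring
    rw [this, ih]
    ring

lemma gs_le_half (k : ℕ) : ∀ m, m ≤ 2 ^ k →
    2 * gs m ≤ k * m ∧ (0 < m → m < 2 ^ k → 2 * gs m < k * m) := by
  induction k with
  | zero =>
    intro m hm
    have : m = 0 ∨ m = 1 := by
      rw [pow_zero] at hm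
      omega
    rcases this with rfl | rfl
    · simp [gs_zero]
    · have h1 : gs 1 = 0 := by decide
      simp [h1]
  | succ k ih =>
    intro m hm
    rcases Nat.lt_or_ge (2 ^ k) m with h | h
    · obtain ⟨a, rfl⟩ := Nat.exists_eq_add_of_le h.le
      have ha : a ≤ 2 ^ k := by
        rw [pow_succ] at hm
        omega
      have h1 := (ih a ha).1
      have h2 := two_gs_pow k
      rw [gs_pow_add k a ha]
      have e : (k + 1) * (2 ^ k + a) = k * 2 ^ k + 2 ^ k + k * a + a := by ring
      rw [e]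
      refine ⟨by omega, fun _ h3 => ?_⟩
      rw [pow_succ] at h3
      omega
    · have h1 := (ih m h).1
      have e : (k + 1) * m = k * m + m := by ring
      rw [e]
      exact ⟨by omega, fun h3 _ => by omega⟩

/-- The numerical inequality for the complements. -/
lemma gs_compl : ∀ N v : ℕ, 2 ^ N ≤ 3 * v → v ≤ 2 ^ N →
    2 ^ N + 2 * gs v ≤ (N + 1) * v ∧ (2 ^ N < 2 * v → v < 2 ^ N → 2 ^ N + 2 * gs v < (N + 1) * v) := by
  intro N
  induction N using Nat.strong_induction_on with
  | _ N ih =>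
    intro v h3 hv
    rcases N with _ | N
    · rw [pow_zero] at *
      have : v = 1 := by omega
      subst this
      have h1 : gs 1 = 0 := by decide
      rw [h1]
      omega
    · rcases Nat.lt_or_ge v (2 ^ N) with h | h
      · rcases N with _ | N
        · rw [pow_zero] at h
          have : v = 0 := by omega
          subst this
          omega
        · have e1 : 2 ^ (N + 1 + 1) = 4 * 2 ^ N := by ring
          have e2 : 2 ^ (N + 1) = 2 * 2 ^ N := by ring
          rw [e1] at h3 hv ⊢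
          rw [e2] at h
          obtain ⟨a, rfl⟩ := Nat.exists_eq_add_of_le (show 2 ^ N ≤ v by omega)
          have h4 := (ih N (by omega) a (by omega) (by omega)).1
          have h5 := two_gs_pow N
          rw [gs_pow_add N a (by omega)]
          have e3 : (N + 1 + 1 + 1) * (2 ^ N + a) = N * 2 ^ N + 3 * 2 ^ N + (N + 1) * a + 2 * a := by
            ring
          rw [e3]
          exact ⟨by omega, fun h6 _ => by omega⟩
      · have e1 : 2 ^ (N + 1) = 2 * 2 ^ N := by ring
        rw [e1] at h3 hv ⊢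
        obtain ⟨a, rfl⟩ := Nat.exists_eq_add_of_le h
        have h4 := gs_le_half N a (by omega)
        have h5 := two_gs_pow N
        rw [gs_pow_add N a (by omega)]
        have e3 : (N + 1 + 1) * (2 ^ N + a) = N * 2 ^ N + 2 * 2 ^ N + N * a + 2 * a := by ring
        rw [e3]
        refine ⟨by omega, fun h6 h7 => ?_⟩
        have := h4.2 (by omega) (by omega)
        omega

/-! ### The total size of a down-set -/

section

variable {α : Type*} [DecidableEq α]

/-- the members without `y` -/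
def sec0 (y : α) (𝒟 : Finset (Finset α)) : Finset (Finset α) := 𝒟.filter fun D => y ∉ D

/-- the members with `y`, with `y` removed -/
def sec1 (y : α) (𝒟 : Finset (Finset α)) : Finset (Finset α) :=
  (𝒟.filter fun D => y ∈ D).image fun D => D.erase y

lemma erase_injOn (y : α) (𝒟 : Finset (Finset α)) :
    Set.InjOn (fun D : Finset α => D.erase y) ((𝒟.filter fun D => y ∈ D : Finset (Finset α)) : Set (Finset α)) := by
  intro D hD D' hD' h
  rw [mem_coe, mem_filter] at hD hD'
  have h' : D.erase y = D'.erase y := h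
  rw [← insert_erase hD.2, ← insert_erase hD'.2, h']

lemma card_secs (y : α) (𝒟 : Finset (Finset α)) :
    (sec0 y 𝒟).card + (sec1 y 𝒟).card = 𝒟.card := by
  unfold sec0 sec1
  rw [card_image_of_injOn (erase_injOn y 𝒟), add_comm]
  exact card_filter_add_card_filter_not (s := 𝒟) (fun D => y ∈ D)

lemma sum_secs (y : α) (𝒟 : Finset (Finset α)) :
    ∑ D ∈ 𝒟, D.card = ∑ D ∈ sec0 y 𝒟, D.card + ∑ D ∈ sec1 y 𝒟, D.card + (sec1 y 𝒟).card := by
  have h1 : ∑ D ∈ 𝒟.filter (fun D => y ∈ D), D.card =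
      ∑ D ∈ sec1 y 𝒟, D.card + (sec1 y 𝒟).card := by
    unfold sec1
    rw [card_image_of_injOn (erase_injOn y 𝒟), sum_image (erase_injOn y 𝒟), card_eq_sum_ones,
      ← sum_add_distrib]
    refine sum_congr rfl fun D hD => ?_
    rw [mem_filter] at hD
    have := card_pos.2 ⟨y, hD.2⟩
    rw [card_erase_of_mem hD.2]
    omega
  rw [← sum_filter_add_sum_filter_not 𝒟 (fun D => y ∈ D), h1]
  unfold sec0
  ring

variable {𝒟 : Finset (Finset α)}

lemma down_sec0 (hD : ∀ D ∈ 𝒟, ∀ D' ⊆ D, D' ∈ 𝒟) (y : α) :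
    ∀ D ∈ sec0 y 𝒟, ∀ D' ⊆ D, D' ∈ sec0 y 𝒟 := by
  intro D h D' h'
  unfold sec0 at *
  rw [mem_filter] at *
  exact ⟨hD D h.1 D' h', fun h2 => h.2 (h' h2)⟩

lemma down_sec1 (hD : ∀ D ∈ 𝒟, ∀ D' ⊆ D, D' ∈ 𝒟) (y : α) :
    ∀ D ∈ sec1 y 𝒟, ∀ D' ⊆ D, D' ∈ sec1 y 𝒟 := by
  intro D h D' h'
  unfold sec1 at *
  rw [mem_image] at *
  obtain ⟨E, hE, rfl⟩ := h
  rw [mem_filter] at hE
  have hy : y ∉ D' := fun h2 => notMem_erase y E (h' h2)
  refine ⟨insert y D', ?_, erase_insert hy⟩
  rw [mem_filter]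
  exact ⟨hD E hE.1 _ (insert_subset hE.2 (h'.trans (erase_subset _ _))), mem_insert_self _ _⟩

lemma sec1_subset (hD : ∀ D ∈ 𝒟, ∀ D' ⊆ D, D' ∈ 𝒟) (y : α) : sec1 y 𝒟 ⊆ sec0 y 𝒟 := by
  intro D h
  unfold sec1 at h
  unfold sec0
  rw [mem_image] at h
  obtain ⟨E, hE, rfl⟩ := h
  rw [mem_filter] at *
  exact ⟨hD E hE.1 _ (erase_subset _ _), notMem_erase _ _⟩

/-- The total size of a down-set. -/
lemma total_le : ∀ (n : ℕ) (𝒟 : Finset (Finset α)), 𝒟.card = n →
    (∀ D ∈ 𝒟, ∀ D' ⊆ D, D' ∈ 𝒟) → ∑ D ∈ 𝒟, D.card ≤ gs 𝒟.card := by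
  intro n
  induction n using Nat.strong_induction_on with
  | _ n ih =>
    intro 𝒟 hn hD
    by_cases h : ∃ y, (sec1 y 𝒟).Nonempty
    · obtain ⟨y, hy⟩ := h
      have h1 := card_secs y 𝒟
      have h2 := sum_secs y 𝒟
      have h3 := card_le_card (sec1_subset hD y)
      have h4 := card_pos.2 hy
      have i0 := ih (sec0 y 𝒟).card (by omega) _ rfl (down_sec0 hD y)
      have i1 := ih (sec1 y 𝒟).card (by omega) _ rfl (down_sec1 hD y)
      have h5 := gs_add _ (sec0 y 𝒟).card (sec1 y 𝒟).card rfl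
      rw [min_eq_right h3] at h5
      rw [h1] at h5
      omega
    · have h1 : ∀ D ∈ 𝒟, D.card = 0 := by
        intro D hD'
        rw [card_eq_zero]
        by_contra hne
        obtain ⟨y, hy⟩ := nonempty_iff_ne_empty.2 hne
        exact h ⟨y, D.erase y, by
          unfold sec1
          exact mem_image.2 ⟨D, mem_filter.2 ⟨hD', hy⟩, rfl⟩⟩
      rw [sum_eq_zero h1]
      exact Nat.zero_le _

/-- A down-set of the largest possible total size does not live in more directions than it has to. -/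
lemma dim_of_eq : ∀ (n : ℕ) (𝒟 : Finset (Finset α)), 𝒟.card = n → 𝒟.Nonempty →
    (∀ D ∈ 𝒟, ∀ D' ⊆ D, D' ∈ 𝒟) → ∑ D ∈ 𝒟, D.card = gs 𝒟.card →
    2 ^ (𝒟.sup id).card < 2 * 𝒟.card := by
  intro n
  induction n using Nat.strong_induction_on with
  | _ n ih =>
    intro 𝒟 hn hne hD heq
    by_cases h : ∃ y, (sec1 y 𝒟).Nonempty
    · obtain ⟨y, hy⟩ := h
      have h1 := card_secs y 𝒟
      have h2 := sum_secs y 𝒟
      have h3 := card_le_card (sec1_subset hD y)
      have h4 := card_pos.2 hy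
      have i0 := total_le _ (sec0 y 𝒟) rfl (down_sec0 hD y)
      have i1 := total_le _ (sec1 y 𝒟) rfl (down_sec1 hD y)
      have h5 := gs_add _ (sec0 y 𝒟).card (sec1 y 𝒟).card rfl
      rw [min_eq_right h3, h1] at h5
      have e0 : ∑ D ∈ sec0 y 𝒟, D.card = gs (sec0 y 𝒟).card := by omega
      have e1 : gs (sec0 y 𝒟).card + gs (sec1 y 𝒟).card + (sec1 y 𝒟).card = gs 𝒟.card := by omega
      have i2 := ih (sec0 y 𝒟).card (by omega) _ rfl (card_pos.1 (by omega)) (down_sec0 hD y) e0
      have hsup : 𝒟.sup id = insert y ((sec0 y 𝒟).sup id) := by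
        ext z
        simp only [mem_sup, mem_insert, id]
        constructor
        · rintro ⟨D, hD', hz⟩
          by_cases hzy : z = y
          · exact Or.inl hzy
          · refine Or.inr ⟨D.erase y, ?_, mem_erase.2 ⟨hzy, hz⟩⟩
            unfold sec0
            exact mem_filter.2 ⟨hD D hD' _ (erase_subset _ _), notMem_erase _ _⟩
        · rintro (rfl | ⟨D, hD', hz⟩)
          · obtain ⟨E, hE⟩ := hy
            unfold sec1 at hE
            obtain ⟨E', hE', -⟩ := mem_image.1 hE
            exact ⟨E', (mem_filter.1 hE').1, (mem_filter.1 hE').2⟩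
          · unfold sec0 at hD'
            exact ⟨D, (mem_filter.1 hD').1, hz⟩
      have hyn : y ∉ (sec0 y 𝒟).sup id := by
        intro hc
        rw [mem_sup] at hc
        obtain ⟨D, hD', hz⟩ := hc
        unfold sec0 at hD'
        exact (mem_filter.1 hD').2 hz
      rw [hsup, card_insert_of_notMem hyn, pow_succ]
      generalize (sec0 y 𝒟).card = a at *
      generalize (sec1 y 𝒟).card = b at *
      generalize ((sec0 y 𝒟).sup id).card = d at *
      rcases d with _ | d
      · rw [pow_zero]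
        omega
      · rw [pow_succ] at i2 ⊢
        by_contra hcon
        push Not at hcon
        obtain ⟨a', rfl⟩ := Nat.exists_eq_add_of_lt (show 2 ^ d < a by omega)
        have g1 := gs_pow_add d (a' + 1) (by omega)
        have g2 := gs_pow_add d (a' + 1 + b) (by omega)
        have g3 := gs_add _ (a' + 1) b rfl
        have e3 : 2 ^ d + a' + 1 = 2 ^ d + (a' + 1) := by ring
        have e4 : 𝒟.card = 2 ^ d + (a' + 1 + b) := by omega
        rw [e3, e4, g1, g2] at e1
        omega
    · have h1 : 𝒟 = {∅} := by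
        refine eq_singleton_iff_nonempty_unique_mem.2 ⟨hne, fun D hD' => ?_⟩
        by_contra hne'
        obtain ⟨y, hy⟩ := nonempty_iff_ne_empty.2 hne'
        exact h ⟨y, D.erase y, by
          unfold sec1
          exact mem_image.2 ⟨D, mem_filter.2 ⟨hD', hy⟩, rfl⟩⟩
      rw [h1]
      simp

end

end Pool.Agent.H504.UC
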