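import Pool.Agent.H504.UC.Inside

/-!
# The tight families of density at least one third
-/

set_option autoImplicit false

namespace Pool.Agent.H504.UC

open Finset Pool.Agent.N188.FC

variable {α : Type*} [DecidableEq α]

/-- no member is missed by more than half -/
def Tight (U : Finset α) (F : Finset (Finset α)) : Prop :=
  ∀ x ∈ U, 2 * (F.filter (fun A => x ∈ A)).card ≤ F.card

/-- the families of the second kind -/
def IsBlock (U : Finset α) (F : Finset (Finset α)) : Prop :=
  ∃ i ∈ U, ∃ j ∈ U, i ≠ j ∧ ∀ A, A ∈ F ↔ A ⊆ U ∧ (i ∈ A ↔ j ∈ A)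

/-- the hypotheses without the density -/
structure Base (U : Finset α) (F : Finset (Finset α)) : Prop where
  ne : F.Nonempty
  uc : ∀ A ∈ F, ∀ B ∈ F, A ∪ B ∈ F
  sub : ∀ A ∈ F, A ⊆ U
  cov : ∀ x ∈ U, ∃ A ∈ F, x ∈ A
  tight : Tight U F

/-- the hypotheses -/
structure Good (U : Finset α) (F : Finset (Finset α)) : Prop extends Base U F where
  dense : 2 ^ U.card ≤ 3 * F.card

variable {F : Finset (Finset α)} {U : Finset α}

/-- a set is free in `F` if its subsets may be added and removed -/
def Free (F : Finset (Finset α)) (T : Finset α) : Prop :=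
  ∀ A ∈ F, ∀ B, B ⊆ T → A ∪ B ∈ F ∧ A \ B ∈ F

/-- the members missing `T` -/
def off (F : Finset (Finset α)) (T : Finset α) : Finset (Finset α) :=
  F.filter fun A => Disjoint A T

lemma mem_off {T A : Finset α} : A ∈ off F T ↔ A ∈ F ∧ Disjoint A T := mem_filter

lemma free_mem {T : Finset α} (hT : Free F T) (A : Finset α) : A ∈ F ↔ A \ T ∈ off F T := by
  rw [mem_off]
  constructor
  · exact fun h => ⟨(hT A h T Subset.rfl).2, sdiff_disjoint⟩
  · rintro ⟨h, -⟩
    have h1 := (hT _ h (A ∩ T) inter_subset_right).1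
    have h2 : A \ T ∪ A ∩ T = A := by
      ext w
      simp only [mem_union, mem_sdiff, mem_inter]
      tauto
    rwa [h2] at h1

/-- the product decomposition -/
lemma free_card {T : Finset α} (hT : Free F T) (p : Finset α → Prop) [DecidablePred p]
    (hp : ∀ A, p A ↔ p (A \ T)) :
    (F.filter p).card = ((off F T).filter p).card * 2 ^ T.card := by
  rw [← card_powerset, ← card_product]
  refine card_nbij' (fun A => (A \ T, A ∩ T)) (fun q => q.1 ∪ q.2) ?_ ?_ ?_ ?_
  · intro A hA
    rw [mem_coe, mem_filter] at hA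
    rw [mem_coe, mem_product, mem_filter, mem_powerset]
    exact ⟨⟨(free_mem hT A).1 hA.1, (hp A).1 hA.2⟩, inter_subset_right⟩
  · rintro ⟨A, B⟩ hq
    rw [mem_coe, mem_product, mem_filter, mem_powerset, mem_off] at hq
    obtain ⟨⟨⟨hA, hd⟩, hpA⟩, hB⟩ := hq
    rw [mem_coe, mem_filter]
    refine ⟨(hT A hA B hB).1, (hp _).2 ?_⟩
    have : (A ∪ B) \ T = A := by
      rw [union_sdiff_distrib, sdiff_eq_empty_iff_subset.2 hB, union_empty]
      exact sdiff_eq_self_of_disjoint hd
    show p ((A ∪ B) \ T)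
    rw [this]
    exact hpA
  · intro A hA
    show A \ T ∪ A ∩ T = A
    ext w
    simp only [mem_union, mem_sdiff, mem_inter]
    tauto
  · rintro ⟨A, B⟩ hq
    rw [mem_coe, mem_product, mem_filter, mem_powerset, mem_off] at hq
    obtain ⟨⟨⟨hA, hd⟩, hpA⟩, hB⟩ := hq
    show ((A ∪ B) \ T, (A ∪ B) ∩ T) = (A, B)
    have e1 : (A ∪ B) \ T = A := by
      rw [union_sdiff_distrib, sdiff_eq_empty_iff_subset.2 hB, union_empty]
      exact sdiff_eq_self_of_disjoint hd
    have e2 : (A ∪ B) ∩ T = B := by
      rw [union_inter_distrib_right, inter_eq_left.2 hB, disjoint_iff_inter_eq_empty.1 hd,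
        empty_union]
    rw [e1, e2]

lemma free_card_all {T : Finset α} (hT : Free F T) : F.card = (off F T).card * 2 ^ T.card := by
  have h := free_card hT (fun _ => True) (fun _ => Iff.rfl)
  rwa [filter_true_of_mem (fun _ _ => trivial), filter_true_of_mem (fun _ _ => trivial)] at h

lemma base_off (h : Base U F) {T : Finset α} (hT : Free F T) :
    Base (U \ T) (off F T) := by
  have hc := free_card_all hT
  have hpos : 0 < 2 ^ T.card := by positivity
  refine ⟨?_, ?_, ?_, ?_, ?_⟩
  · obtain ⟨A, hA⟩ := h.ne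
    exact ⟨A \ T, (free_mem hT A).1 hA⟩
  · intro A hA B hB
    rw [mem_off] at hA hB ⊢
    exact ⟨h.uc A hA.1 B hB.1, disjoint_union_left.2 ⟨hA.2, hB.2⟩⟩
  · intro A hA
    rw [mem_off] at hA
    exact subset_sdiff.2 ⟨h.sub A hA.1, hA.2⟩
  · intro x hx
    rw [mem_sdiff] at hx
    obtain ⟨A, hA, hxA⟩ := h.cov x hx.1
    exact ⟨A \ T, (free_mem hT A).1 hA, mem_sdiff.2 ⟨hxA, hx.2⟩⟩
  · intro x hx
    rw [mem_sdiff] at hx
    have h1 := h.tight x hx.1
    have h2 := free_card hT (fun A => x ∈ A) (fun A => by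
      rw [mem_sdiff]
      exact ⟨fun h => ⟨h, hx.2⟩, fun h => h.1⟩)
    rw [h2, hc, ← mul_assoc] at h1
    exact Nat.le_of_mul_le_mul_right h1 hpos

lemma good_off (h : Good U F) {T : Finset α} (hTU : T ⊆ U) (hT : Free F T) :
    Good (U \ T) (off F T) := by
  have hc := free_card_all hT
  have hpos : 0 < 2 ^ T.card := by positivity
  refine ⟨base_off h.toBase hT, ?_⟩
  have h1 := h.dense
  have h2 := card_sdiff_add_card_eq_card hTU
  rw [← h2, pow_add, hc, ← mul_assoc] at h1
  exact Nat.le_of_mul_le_mul_right h1 hpos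

lemma concl_of_off (h : Good U F) {T : Finset α} (hTU : T ⊆ U) (hT : Free F T)
    (hc : off F T = (U \ T).powerset ∨ IsBlock (U \ T) (off F T)) :
    F = U.powerset ∨ IsBlock U F := by
  have hsub : ∀ A : Finset α, A \ T ⊆ U \ T ↔ A ⊆ U := by
    intro A
    constructor
    · intro h1 w hw
      by_cases hwT : w ∈ T
      · exact hTU hwT
      · exact (mem_sdiff.1 (h1 (mem_sdiff.2 ⟨hw, hwT⟩))).1
    · exact fun h1 => sdiff_subset_sdiff h1 Subset.rfl
  rcases hc with hc | ⟨i, hi, j, hj, hij, hc⟩
  · left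
    ext A
    rw [free_mem hT, hc, mem_powerset, mem_powerset, hsub]
  · right
    rw [mem_sdiff] at hi hj
    refine ⟨i, hi.1, j, hj.1, hij, fun A => ?_⟩
    rw [free_mem hT, hc, hsub, mem_sdiff, mem_sdiff]
    have h1 := hi.2
    have h2 := hj.2
    tauto

lemma powerset_of_free (h : Good U F) (hU : Free F U) : F = U.powerset := by
  ext A
  rw [mem_powerset]
  refine ⟨h.sub A, fun hA => ?_⟩
  obtain ⟨B, hB⟩ := h.ne
  have h1 := (hU _ (hU B hB U Subset.rfl).2 A hA).1
  rwa [sdiff_eq_empty_iff_subset.2 (h.sub B hB), empty_union] at h1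

lemma ins_self (h : Good U F) : ins F U = F := by
  unfold ins
  exact filter_true_of_mem h.sub

/-! ### Blocks -/

/-- members contain both or none of `i` and `j` -/
def Sep (F : Finset (Finset α)) (i j : α) : Prop := ∀ A ∈ F, (i ∈ A ↔ j ∈ A)

lemma erase_inj_block {i j : α} (hij : i ≠ j) (hs : Sep F i j) :
    Set.InjOn (fun A : Finset α => A.erase j) (F : Set (Finset α)) := by
  intro A hA B hB h
  rw [mem_coe] at hA hB
  have h' : A.erase j = B.erase j := h
  have h1 : i ∈ A ↔ i ∈ B := by
    have h2 : i ∈ A.erase j ↔ i ∈ B.erase j := by rw [h']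
    simpa [hij] using h2
  by_cases hj : j ∈ A
  · have hj' : j ∈ B := (hs B hB).1 (h1.1 ((hs A hA).2 hj))
    rw [← insert_erase hj, ← insert_erase hj', h']
  · have hj' : j ∉ B := fun hj' => hj ((hs A hA).1 (h1.2 ((hs B hB).2 hj')))
    rw [← erase_eq_of_notMem hj, ← erase_eq_of_notMem hj', h']

lemma good_quot (h : Good U F) {i j : α} (hi : i ∈ U) (hj : j ∈ U) (hij : i ≠ j)
    (hs : Sep F i j) : Good (U.erase j) (F.image fun A => A.erase j) := by
  have hc : (F.image fun A => A.erase j).card = F.card := card_image_of_injOn (erase_inj_block hij hs)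
  refine ⟨⟨h.ne.image _, ?_, ?_, ?_, ?_⟩, ?_⟩
  · intro A hA B hB
    rw [mem_image] at hA hB ⊢
    obtain ⟨A', hA', rfl⟩ := hA
    obtain ⟨B', hB', rfl⟩ := hB
    exact ⟨A' ∪ B', h.uc A' hA' B' hB', erase_union_distrib A' B' j⟩
  · intro A hA
    rw [mem_image] at hA
    obtain ⟨A', hA', rfl⟩ := hA
    exact erase_subset_erase _ (h.sub A' hA')
  · intro x hx
    rw [mem_erase] at hx
    obtain ⟨A, hA, hxA⟩ := h.cov x hx.2
    exact ⟨A.erase j, mem_image_of_mem _ hA, mem_erase.2 ⟨hx.1, hxA⟩⟩
  · intro x hx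
    rw [mem_erase] at hx
    rw [hc]
    refine le_trans (Nat.mul_le_mul_left 2 ?_) (h.tight x hx.2)
    have h3 : (F.image fun A => A.erase j).filter (fun A => x ∈ A) =
        (F.filter fun A => x ∈ A).image fun A => A.erase j := by
      ext A
      simp only [mem_filter, mem_image]
      constructor
      · rintro ⟨⟨B, hB, rfl⟩, hx'⟩
        exact ⟨B, ⟨hB, (mem_erase.1 hx').2⟩, rfl⟩
      · rintro ⟨B, ⟨hB, hx'⟩, rfl⟩
        exact ⟨⟨B, hB, rfl⟩, mem_erase.2 ⟨hx.1, hx'⟩⟩
    rw [h3]
    exact card_image_le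
  · rw [hc]
    have h1 := h.dense
    have h2 := two_pow_erase hj
    omega

lemma block_card (hb : IsBlock U F) : 2 * F.card ≤ 2 ^ U.card := by
  obtain ⟨i, hi, j, hj, hij, hF⟩ := hb
  have hs : Sep F i j := fun A hA => ((hF A).1 hA).2
  have h1 : (F.image fun A => A.erase j).card = F.card := card_image_of_injOn (erase_inj_block hij hs)
  have h2 : (F.image fun A => A.erase j) ⊆ (U.erase j).powerset := by
    intro A hA
    rw [mem_image] at hA
    obtain ⟨A', hA', rfl⟩ := hA
    exact mem_powerset.2 (erase_subset_erase _ ((hF A').1 hA').1)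
  have h3 := card_le_card h2
  rw [card_powerset, h1] at h3
  have h4 := two_pow_erase hj
  omega

lemma concl_of_quot (h : Good U F) {i j : α} (hi : i ∈ U) (hj : j ∈ U) (hij : i ≠ j)
    (hs : Sep F i j) (hc : (F.image fun A => A.erase j) = (U.erase j).powerset ∨
      IsBlock (U.erase j) (F.image fun A => A.erase j)) : IsBlock U F := by
  have hcard : (F.image fun A => A.erase j).card = F.card :=
    card_image_of_injOn (erase_inj_block hij hs)
  have h2 := two_pow_erase hj
  have h3 := h.dense
  have h4 : 0 < F.card := card_pos.2 h.ne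
  rcases hc with hc | hc
  · refine ⟨i, hi, j, hj, hij, fun A => ⟨fun hA => ⟨h.sub A hA, hs A hA⟩, ?_⟩⟩
    rintro ⟨hA, hA'⟩
    have h5 : A.erase j ∈ F.image fun A => A.erase j := by
      rw [hc, mem_powerset]
      exact erase_subset_erase _ hA
    rw [mem_image] at h5
    obtain ⟨B, hB, hBA⟩ := h5
    have h6 : i ∈ B ↔ i ∈ A := by
      have h7 : i ∈ B.erase j ↔ i ∈ A.erase j := by rw [hBA]
      simpa [hij] using h7
    have h7 : B = A := by
      by_cases hjA : j ∈ A
      · have hjB : j ∈ B := (hs B hB).1 (h6.2 (hA'.2 hjA))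
        rw [← insert_erase hjA, ← insert_erase hjB, hBA]
      · have hjB : j ∉ B := fun hjB => hjA (hA'.1 (h6.1 ((hs B hB).2 hjB)))
        rw [← erase_eq_of_notMem hjA, ← erase_eq_of_notMem hjB, hBA]
    rwa [← h7]
  · have h5 := block_card hc
    rw [hcard] at h5
    omega

lemma not_three_dvd : ∀ n k : ℕ, 3 * k ≠ 2 ^ n := by
  intro n
  induction n with
  | zero =>
    intro k h
    rw [pow_zero] at h
    omega
  | succ n ih =>
    intro k h
    rw [pow_succ] at h
    obtain ⟨m, hm⟩ : ∃ m, k = 2 * m := ⟨k / 2, by omega⟩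
    subst hm
    exact ih m (by omega)

lemma not_strict (h : Base U F) {S : Finset α} (hS : S ⊆ U) :
    ¬ ∃ x ∈ S, F.card < 2 * (F.filter (fun A => x ∈ A)).card := by
  rintro ⟨x, hx, h1⟩
  have h2 := h.tight x (hS hx)
  omega

theorem whole_aux : ∀ (n : ℕ) (U : Finset α) (F : Finset (Finset α)), U.card = n → Good U F →
    F = U.powerset ∨ IsBlock U F := by
  intro n
  induction n using Nat.strong_induction_on with
  | _ n ih =>
    intro U F hn h
    -- a nonempty free set
    have key : ∀ T ⊆ U, T.Nonempty → Free F T → F = U.powerset ∨ IsBlock U F := by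
      intro T hTU hTne hT
      refine concl_of_off h hTU hT (ih (U \ T).card ?_ (U \ T) (off F T) rfl (good_off h hTU hT))
      have h1 := card_sdiff_add_card_eq_card hTU
      have h2 : 0 < T.card := card_pos.2 hTne
      omega
    -- a block
    by_cases hb : ∃ i ∈ U, ∃ j ∈ U, i ≠ j ∧ Sep F i j
    · obtain ⟨i, hi, j, hj, hij, hs⟩ := hb
      refine Or.inr (concl_of_quot h hi hj hij hs
        (ih (U.erase j).card ?_ (U.erase j) _ rfl (good_quot h hi hj hij hs)))
      rw [← hn]
      exact card_erase_lt_of_mem hj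
    · have hd := h.dense
      have hne := not_three_dvd U.card F.card
      rcases Nat.lt_or_ge (3 * F.card) (2 ^ U.card + 3) with he | he
      · by_cases hdeg : ∀ x ∈ U, 2 ^ U.card ≤ 6 * deg F U x
        · have hnb : ∀ x ∈ U, ∀ y ∈ U, x ≠ y → Imp F U x y → ¬ Imp F U y x := by
            intro x hx y hy hxy h1 h2
            exact hb ⟨x, hx, y, hy, hxy, fun A hA =>
              ⟨fun h3 => h1 A hA (h.sub A hA) h3, fun h3 => h2 A hA (h.sub A hA) h3⟩⟩
          rcases core h.uc h.uc hdeg hnb with h1 | h1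
          · exact absurd h1 (not_strict h.toBase Subset.rfl)
          · exact Or.inl (powerset_of_free h h1)
        · push Not at hdeg
          obtain ⟨x, hx, hlt⟩ := hdeg
          have h5 := two_pow_erase hx
          have h3 := card_ins_erase F U x
          rw [ins_self h] at h3
          by_cases he2 : 3 * F.card = 2 ^ U.card + 2
          · rcases inside h.uc h.uc (U.erase x) (by omega) with h1 | ⟨T, hTU, hTne, hT⟩
            · exact absurd h1 (not_strict h.toBase (erase_subset _ _))
            · exact key T (hTU.trans (erase_subset _ _)) hTne hT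
          · exfalso
            have he1 : 3 * F.card = 2 ^ U.card + 1 := by omega
            -- `U` has at least three elements
            have hdpos : 0 < deg F U x := by
              obtain ⟨A, hA, hxA⟩ := h.cov x hx
              exact card_pos.2 ⟨A, mem_filter.2 ⟨hA, h.sub A hA, hxA⟩⟩
            have hn3 : 3 ≤ U.card := by
              by_contra hlt3
              have h6 : 2 ^ U.card ≤ 2 ^ 2 := Nat.pow_le_pow_right (by norm_num) (by omega)
              omega
            obtain ⟨m, hm⟩ : ∃ m, U.card = m + 1 := ⟨U.card - 1, by omega⟩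
            have hne' : F.card ≤ (F.filter (fun B => B.Nonempty)).card + 1 := by
              have h6 : F ⊆ insert ∅ (F.filter (fun B => B.Nonempty)) := by
                intro A hA
                rcases A.eq_empty_or_nonempty with rfl | h7
                · exact mem_insert_self _ _
                · exact mem_insert_of_mem (mem_filter.2 ⟨hA, h7⟩)
              exact (card_le_card h6).trans (card_insert_le _ _)
            obtain ⟨y, hy, h7⟩ := density_third h.uc m U F hm h.sub h.uc (by omega)
            have h8 := h.tight y hy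
            omega
      · rcases inside h.uc h.uc U (by rw [ins_self h]; exact he) with h1 | ⟨T, hTU, hTne, hT⟩
        · exact absurd h1 (not_strict h.toBase Subset.rfl)
        · exact key T hTU hTne hT

lemma sup_eq (h : Base U F) : F.sup id = U := by
  ext x
  rw [mem_sup]
  constructor
  · rintro ⟨A, hA, hx⟩
    exact h.sub A hA hx
  · intro hx
    obtain ⟨A, hA, hxA⟩ := h.cov x hx
    exact ⟨A, hA, hxA⟩

lemma base_sup (hne : F.Nonempty) (huc : ∀ A ∈ F, ∀ B ∈ F, A ∪ B ∈ F)
    (ht : ∀ x ∈ F.sup id, 2 * (F.filter (fun A => x ∈ A)).card ≤ F.card) : Base (F.sup id) F :=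
  ⟨hne, huc, fun A hA => le_sup (f := id) hA, fun x hx => by
    rw [mem_sup] at hx
    obtain ⟨A, hA, hxA⟩ := hx
    exact ⟨A, hA, hxA⟩, ht⟩

/-- a counterexample to Poonen's conjecture -/
def Counter (F : Finset (Finset α)) : Prop :=
  F.Nonempty ∧ (∀ A ∈ F, ∀ B ∈ F, A ∪ B ∈ F) ∧
    (∀ x ∈ F.sup id, ∀ y ∈ F.sup id, x ≠ y → ∃ A ∈ F, ¬ (x ∈ A ↔ y ∈ A)) ∧
    F ≠ (F.sup id).powerset ∧
    ∀ x ∈ F.sup id, 2 * (F.filter (fun A => x ∈ A)).card ≤ F.card

theorem sparse_aux : ∀ (n : ℕ) (F : Finset (Finset α)), (F.sup id).card = n → Counter F →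
    ∃ F' ⊆ F, Counter F' ∧ ∀ S : Finset α, 3 * (F'.filter (fun B => B ⊆ S)).card ≤ 2 ^ S.card + 2 := by
  intro n
  induction n using Nat.strong_induction_on with
  | _ n ih =>
    intro F hn hF
    by_cases hS : ∀ S : Finset α, 3 * (F.filter (fun B => B ⊆ S)).card ≤ 2 ^ S.card + 2
    · exact ⟨F, Subset.rfl, hF, hS⟩
    push Not at hS
    obtain ⟨S, hS⟩ := hS
    have hb := base_sup hF.1 hF.2.1 hF.2.2.2.2
    rcases inside hb.uc hb.uc S hS with ⟨x, hx, h1⟩ | ⟨T, hTS, hTne, hT⟩
    · exfalso
      by_cases hxU : x ∈ F.sup id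
      · have := hb.tight x hxU
        omega
      · have h2 : F.filter (fun A => x ∈ A) = ∅ := by
          rw [filter_eq_empty_iff]
          intro A hA hxA
          exact hxU (hb.sub A hA hxA)
        rw [h2, card_empty] at h1
        omega
    · have hTU : T ⊆ F.sup id := by
        obtain ⟨A, hA⟩ := hb.ne
        exact subset_union_right.trans (hb.sub _ (hT A hA T Subset.rfl).1)
      have hb' := base_off hb hT
      have hU' := sup_eq hb'
      have hcount : Counter (off F T) := by
        refine ⟨hb'.ne, hb'.uc, ?_, ?_, ?_⟩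
        · rw [hU']
          intro x hx y hy hxy
          rw [mem_sdiff] at hx hy
          obtain ⟨A, hA, hne⟩ := hF.2.2.1 x hx.1 y hy.1 hxy
          refine ⟨A \ T, (free_mem hT A).1 hA, ?_⟩
          rw [mem_sdiff, mem_sdiff]
          have h1 := hx.2
          have h2 := hy.2
          tauto
        · rw [hU']
          intro hpow
          refine hF.2.2.2.1 ?_
          ext A
          rw [free_mem hT, hpow, mem_powerset, mem_powerset]
          constructor
          · intro h1 w hw
            by_cases hwT : w ∈ T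
            · exact hTU hwT
            · exact (mem_sdiff.1 (h1 (mem_sdiff.2 ⟨hw, hwT⟩))).1
          · exact fun h1 => sdiff_subset_sdiff h1 Subset.rfl
        · rw [hU']
          exact hb'.tight
      obtain ⟨F', hF', hc, hs⟩ := ih (F.sup id \ T).card (by
        have h1 := card_sdiff_add_card_eq_card hTU
        have h2 : 0 < T.card := card_pos.2 hTne
        omega) (off F T) (by rw [hU']) hcount
      exact ⟨F', hF'.trans (filter_subset _ _), hc, hs⟩

/-! ### The families of the two kinds are tight -/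

lemma half_of_compl (hsub : ∀ A ∈ F, A ⊆ U) (hc : ∀ A ∈ F, U \ A ∈ F) {x : α} (hx : x ∈ U) :
    2 * (F.filter (fun A => x ∈ A)).card = F.card := by
  have h1 : (F.filter (fun A => x ∈ A)).card = (F.filter (fun A => ¬ x ∈ A)).card := by
    refine card_nbij' (fun A => U \ A) (fun A => U \ A) ?_ ?_ ?_ ?_
    · intro A hA
      rw [mem_coe, mem_filter] at hA ⊢
      exact ⟨hc A hA.1, fun h => (mem_sdiff.1 h).2 hA.2⟩
    · intro A hA
      rw [mem_coe, mem_filter] at hA ⊢
      exact ⟨hc A hA.1, mem_sdiff.2 ⟨hx, hA.2⟩⟩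
    · intro A hA
      rw [mem_coe, mem_filter] at hA
      exact Finset.sdiff_sdiff_eq_self (hsub A hA.1)
    · intro A hA
      rw [mem_coe, mem_filter] at hA
      exact Finset.sdiff_sdiff_eq_self (hsub A hA.1)
  have h2 := card_filter_add_card_filter_not (s := F) (fun A => x ∈ A)
  omega

lemma tight_of_concl (h : F = U.powerset ∨ IsBlock U F) : Tight U F := by
  intro x hx
  rcases h with rfl | ⟨i, hi, j, hj, hij, hF⟩
  · exact (half_of_compl (fun A hA => mem_powerset.1 hA)
      (fun A hA => mem_powerset.2 sdiff_subset) hx).le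
  · refine (half_of_compl (fun A hA => ((hF A).1 hA).1) (fun A hA => (hF _).2 ⟨sdiff_subset, ?_⟩)
      hx).le
    have h1 := ((hF A).1 hA).2
    rw [mem_sdiff, mem_sdiff]
    tauto

end Pool.Agent.H504.UC
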